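import Pool.Agent.Q325.CsTwoPoly

/-!
# Cycle stable roommates with bounded preference lists

Definitions: `Pool/Agent/Q325/CsDefs.lean`; complexity classes: `Pool/Agent/NPC/Defs.lean`.

Hardness. The reduction is from exactly-one-in-three satisfiability with positive clauses. The
position `s` of a clause has the agents `A s`, `E s`, where `s'`, `s''` are the next and the
previous position of the clause, with preference lists

* `A s : A s', E s, A s''` and `E s : P x, A s, Q y`.

For every variable there is a ring of agents `P 0, Q 0, P 1, Q 1, ...` in which every agent prefers
the next one to the previous one; at the place `x` of the position `s` the pair `Q (x - 1)`, `P x`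
of neighbours is replaced by `Q (x - 1), E s'` and `E s'', P x`. In a matching which is stable for
cycles of length two and three, the `Q (x - 1), P x` type edges of a ring are either all used (the
variable is true) or all unused; the position `s` is true if and only if `A s'` and `A s''` are
partners, so at most one position of a clause is true; and at least one, since otherwise `A s, A s',
A s''` form a blocking cycle of length three. Conversely there is a cycle stable matching for every
assignment that makes exactly one position of each clause true.

Lists of length at most two: cycle stability, 3-cycle stability and stability agree, and a stable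
matching exists if and only if there is no ring of odd length.
-/

set_option autoImplicit false

namespace Pool.Agent.Results.MP_68674a_lc.CycleStableComplete

open Pool.Agent.NPC Pool.Agent.Q325.CS

/-- **CS(L) and CS₃(L) are NP-complete for `L ≥ 3` and in P for `L ≤ 2`.** -/
theorem result :
    (∀ L, 3 ≤ L → (InNPP (CS L) ∧ NPHardP (CS L)) ∧ (InNPP (CS3 L) ∧ NPHardP (CS3 L))) ∧
    ∀ L, L ≤ 2 → InPP (CS L) ∧ InPP (CS3 L) :=
  ⟨fun L hL => ⟨⟨Pool.Agent.NPC.Q325CS.inNP_CS L, Pool.Agent.NPC.Q325CS.hard_CS hL⟩,
    ⟨Pool.Agent.NPC.Q325CS.inNP_CS3 L, Pool.Agent.NPC.Q325CS.hard_CS3 hL⟩⟩,
    fun _ hL => ⟨Pool.Agent.NPC.Q325CS.inP_CS hL, Pool.Agent.NPC.Q325CS.inP_CS3 hL⟩⟩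

end Pool.Agent.Results.MP_68674a_lc.CycleStableComplete
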